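import Pool.Agent.W5h51.SP.Gen

set_option autoImplicit false

open MeasureTheory Set
open scoped Matrix

namespace Pool.Agent.Results.MP_a3bfa4_an.SpectralNotHadamard

/-- `R` is expanding: all its complex eigenvalues have modulus `> 1`. -/
def IsExpanding {d : ℕ} (R : Matrix (Fin d) (Fin d) ℤ) : Prop :=
  ∀ z : ℂ, (R.map (Int.castRingHom ℂ)).charpoly.IsRoot z → 1 < ‖z‖

/-- `τ_b(x) = R⁻¹ (x + b)` -/
noncomputable def tau {d : ℕ} (R : Matrix (Fin d) (Fin d) ℤ) (b : Fin d → ℤ)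
    (x : Fin d → ℝ) : Fin d → ℝ :=
  (R.map (Int.castRingHom ℝ))⁻¹ *ᵥ (x + fun i => (b i : ℝ))

/-- `μ` is a self-affine probability measure of `(R, B)` (equal weights). -/
def IsSelfAffine {d : ℕ} (R : Matrix (Fin d) (Fin d) ℤ) (B : Finset (Fin d → ℤ))
    (μ : Measure (Fin d → ℝ)) : Prop :=
  IsProbabilityMeasure μ ∧ μ = ∑ b ∈ B, ((B.card : ENNReal)⁻¹) • μ.map (tau R b)

/-- `T` is the attractor of `(R, B)`. -/
def IsAttractor {d : ℕ} (R : Matrix (Fin d) (Fin d) ℤ) (B : Finset (Fin d → ℤ))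
    (T : Set (Fin d → ℝ)) : Prop :=
  IsCompact T ∧ T.Nonempty ∧ T = ⋃ b ∈ B, tau R b '' T

/-- The exponential `x ↦ exp (2 π i ⟨l, x⟩)`. -/
noncomputable def expo {d : ℕ} (l x : Fin d → ℝ) : ℂ :=
  Complex.exp (2 * Real.pi * Complex.I * ((∑ i, l i * x i : ℝ) : ℂ))

/-- The family `e` is orthonormal and its linear span is dense. -/
def IsCompleteOrthonormal {ι H : Type} [NormedAddCommGroup H] [InnerProductSpace ℂ H]
    (e : ι → H) : Prop :=
  Orthonormal ℂ e ∧ (Submodule.span ℂ (Set.range e)).topologicalClosure = ⊤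

/-- `L²(μ)` has an orthonormal basis of exponentials with a countable frequency set. -/
def IsSpectral {d : ℕ} (μ : Measure (Fin d → ℝ)) : Prop :=
  ∃ (Λ : Set (Fin d → ℝ)) (e : Λ → Lp ℂ 2 μ), Λ.Countable ∧
    (∀ l : Λ, (e l : (Fin d → ℝ) → ℂ) =ᵐ[μ] expo (l : Fin d → ℝ)) ∧ IsCompleteOrthonormal e

/-- The pieces of the attractor meet in sets of measure zero. -/
def NoOverlap {d : ℕ} (R : Matrix (Fin d) (Fin d) ℤ) (B : Finset (Fin d → ℤ))
    (μ : Measure (Fin d → ℝ)) : Prop :=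
  ∀ T, IsAttractor R B T → ∀ b ∈ B, ∀ b' ∈ B, b ≠ b' → μ (tau R b '' T ∩ tau R b' '' T) = 0

/-- The real number `⟨R⁻¹ b, l⟩`. -/
noncomputable def pairing {d : ℕ} (R : Matrix (Fin d) (Fin d) ℤ) (b l : Fin d → ℤ) : ℝ :=
  ∑ i, ((R.map (Int.castRingHom ℝ))⁻¹ *ᵥ fun j => (b j : ℝ)) i * (l i : ℝ)

/-- The matrix `N^(-1/2) (exp (2 π i ⟨R⁻¹ b, l⟩))`, rows `l ∈ L`, columns `b ∈ B`. -/
noncomputable def hadMatrix {d : ℕ} (R : Matrix (Fin d) (Fin d) ℤ)
    (B L : Finset (Fin d → ℤ)) : Matrix L B ℂ := fun l b =>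
  ((Real.sqrt B.card : ℝ) : ℂ)⁻¹ * Complex.exp (2 * Real.pi * Complex.I * (pairing R b l : ℂ))

/-- `(R, B, L)` is a Hadamard triple. -/
def IsHadamardTriple {d : ℕ} (R : Matrix (Fin d) (Fin d) ℤ) (B L : Finset (Fin d → ℤ)) : Prop :=
  L.card = B.card ∧ hadMatrix R B L * (hadMatrix R B L)ᴴ = 1 ∧
    (hadMatrix R B L)ᴴ * hadMatrix R B L = 1

/-- Some `L` makes `(R, B, L)` a Hadamard triple. -/
def HasHadamardTriple {d : ℕ} (R : Matrix (Fin d) (Fin d) ℤ) (B : Finset (Fin d → ℤ)) : Prop :=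
  ∃ L : Finset (Fin d → ℤ), IsHadamardTriple R B L

/-- `B` is a simple digit set for `R`: its elements are distinct modulo `R ℤ^d`. -/
def IsSimple {d : ℕ} (R : Matrix (Fin d) (Fin d) ℤ) (B : Finset (Fin d → ℤ)) : Prop :=
  ∀ b ∈ B, ∀ b' ∈ B, ∀ z : Fin d → ℤ, b - b' = R *ᵥ z → b = b'

/-- The attractor has volume zero and its pieces are pairwise disjoint. -/
def StronglySeparated {d : ℕ} (R : Matrix (Fin d) (Fin d) ℤ) (B : Finset (Fin d → ℤ)) : Prop :=
  ∀ T, IsAttractor R B T → volume T = 0 ∧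
    ∀ b ∈ B, ∀ b' ∈ B, b ≠ b' → Disjoint (tau R b '' T) (tau R b' '' T)

/-- `B + R B + ⋯ + R^(n-1) B`, the digit set of the `n`-th iterate. -/
def iterDigits {d : ℕ} (R : Matrix (Fin d) (Fin d) ℤ) (B : Finset (Fin d → ℤ)) :
    ℕ → Finset (Fin d → ℤ)
  | 0 => {0}
  | n + 1 => (B ×ˢ iterDigits R B n).image fun p => p.1 + R *ᵥ p.2

open Pool.Agent.W5h51.SP

theorem tau_eq {d : ℕ} (b : Fin d → ℤ) : tau (Matrix.diagonal fun _ : Fin d => (12 : ℤ)) b = tt b := by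
  funext x
  have h := inv_diag (d := d) 1
  rw [pow_one] at h
  unfold tau
  rw [h]
  funext i
  rw [Matrix.mulVec_diagonal, pow_one, tt, Pi.add_apply]
  ring

theorem iter_eq {d : ℕ} (n : ℕ) : iterDigits (Matrix.diagonal fun _ : Fin d => (12 : ℤ)) (Dig d) n =
    Fintype.piFinset fun _ => D1 n := by
  induction n with
  | zero =>
    ext c
    rw [iterDigits, Finset.mem_singleton, Fintype.mem_piFinset]
    simp only [D1, Finset.mem_singleton]
    exact ⟨fun h i => by rw [h]; rfl, fun h => funext h⟩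
  | succ n ih =>
    rw [pi_D1_succ, iterDigits, ih]
    congr 1
    funext p
    congr 1
    funext i
    rw [Matrix.mulVec_diagonal]
    rfl

theorem not_had {d : ℕ} (hd : 1 ≤ d) (n : ℕ) (L : Finset (Fin d → ℤ)) :
    ¬ IsHadamardTriple ((Matrix.diagonal fun _ : Fin d => (12 : ℤ)) ^ (n + 1))
      (iterDigits (Matrix.diagonal fun _ : Fin d => (12 : ℤ)) (Dig d) (n + 1)) L := by
  rintro ⟨hcard, hU, -⟩
  rw [iter_eq] at hcard hU
  set BB : Finset (Fin d → ℤ) := Fintype.piFinset fun _ => D1 (n + 1) with hBB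
  have hBcard : BB.card = (4 ^ (n + 1)) ^ d := by
    rw [hBB, Fintype.card_piFinset, Finset.prod_const, Finset.card_univ, Fintype.card_fin, card_D1]
  rw [hBcard] at hcard
  obtain ⟨l, hl, l', hl', hne, hM⟩ := exists_bad hd n L hcard
  have h1 := congrFun (congrFun hU ⟨l, hl⟩) ⟨l', hl'⟩
  rw [Matrix.one_apply_ne (fun h => hne (congrArg Subtype.val h)), Matrix.mul_apply] at h1
  have h2 : ∀ b : BB, hadMatrix ((Matrix.diagonal fun _ : Fin d => (12 : ℤ)) ^ (n + 1)) BB L ⟨l, hl⟩ b *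
      (hadMatrix ((Matrix.diagonal fun _ : Fin d => (12 : ℤ)) ^ (n + 1)) BB L)ᴴ b ⟨l', hl'⟩ =
      (((Real.sqrt BB.card : ℝ) : ℂ)⁻¹ * ((Real.sqrt BB.card : ℝ) : ℂ)⁻¹) *
        ∏ i, ee ((((l i - l' i : ℤ) : ℝ) / 12 ^ (n + 1)) * (((b : Fin d → ℤ) i : ℤ) : ℝ)) := by
    intro b
    rw [Matrix.conjTranspose_apply, hadMatrix, hadMatrix, pairing, pairing, inv_diag]
    simp only [Matrix.mulVec_diagonal]
    rw [star_mul', ← starRingEnd_apply, ← starRingEnd_apply, map_inv₀, Complex.conj_ofReal,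
      ← Complex.exp_conj]
    have e1 : (starRingEnd ℂ) (2 * Real.pi * Complex.I *
        ((∑ i, ((12 : ℝ) ^ (n + 1))⁻¹ * (((b : Fin d → ℤ) i : ℤ) : ℝ) * ((l' i : ℤ) : ℝ) : ℝ) : ℂ)) =
        2 * Real.pi * Complex.I *
        ((∑ i, -(((12 : ℝ) ^ (n + 1))⁻¹ * (((b : Fin d → ℤ) i : ℤ) : ℝ) * ((l' i : ℤ) : ℝ)) : ℝ) : ℂ) := by
      rw [map_mul, map_mul, map_mul, Complex.conj_ofReal, Complex.conj_ofReal, Complex.conj_I,
        Finset.sum_neg_distrib]
      simp only [map_ofNat]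
      push_cast
      ring
    rw [e1]
    unfold ee
    rw [← Complex.exp_sum, mul_mul_mul_comm, ← Complex.exp_add, ← mul_add, ← Complex.ofReal_add,
      ← Finset.sum_add_distrib, ← Finset.mul_sum, ← Complex.ofReal_sum]
    congr 4
    refine Finset.sum_congr rfl fun i _ => ?_
    push_cast
    ring
  simp_rw [h2] at h1
  rw [← Finset.mul_sum, mul_eq_zero] at h1
  have h3 : ((Real.sqrt BB.card : ℝ) : ℂ) ≠ 0 := by
    rw [Complex.ofReal_ne_zero, Real.sqrt_ne_zero', hBcard]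
    positivity
  rcases h1 with h1 | h1
  · rw [mul_self_eq_zero] at h1
    exact h3 (inv_eq_zero.1 h1)
  · rw [Finset.sum_coe_sort BB (fun b : Fin d → ℤ =>
      ∏ i, ee ((((l i - l' i : ℤ) : ℝ) / 12 ^ (n + 1)) * ((b i : ℤ) : ℝ))), hBB,
      sum_pi_D1 (n + 1) (fun i => ((l i - l' i : ℤ) : ℝ) / 12 ^ (n + 1)), Finset.prod_eq_zero_iff] at h1
    obtain ⟨i, -, hi⟩ := h1
    exact hM i hi

/-- In every dimension there are an expanding integer matrix and a simple digit set whose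
self-affine measure is spectral and has no overlap, without any Hadamard triple. -/
theorem result : ∀ d : ℕ, 1 ≤ d → ∃ (R : Matrix (Fin d) (Fin d) ℤ) (B : Finset (Fin d → ℤ)),
    IsExpanding R ∧ 2 ≤ B.card ∧ 0 ∈ B ∧ AddSubgroup.closure (B : Set (Fin d → ℤ)) = ⊤ ∧
    IsSimple R B ∧ (∃ T, IsAttractor R B T) ∧ StronglySeparated R B ∧
    (∃ μ, IsSelfAffine R B μ) ∧ (∀ μ, IsSelfAffine R B μ → IsSpectral μ ∧ NoOverlap R B μ) ∧
    ∀ n : ℕ, 1 ≤ n → ¬ HasHadamardTriple (R ^ n) (iterDigits R B n) := by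
  intro d hd
  refine ⟨Matrix.diagonal fun _ => (12 : ℤ), Dig d, ?_, ?_, ?_, ?_, ?_, ?_, ?_, ?_, ?_, ?_⟩
  · intro z hz
    rw [Matrix.diagonal_map (map_zero _), Matrix.charpoly_diagonal, Polynomial.IsRoot,
      Polynomial.eval_prod, Finset.prod_eq_zero_iff] at hz
    obtain ⟨i, -, hi⟩ := hz
    simp only [Polynomial.eval_sub, Polynomial.eval_X, Polynomial.eval_C] at hi
    rw [sub_eq_zero] at hi
    rw [hi]
    simp
  · rw [card_Dig]
    calc 2 ≤ 4 ^ 1 := by norm_num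
      _ ≤ 4 ^ d := Nat.pow_le_pow_right (by norm_num) hd
  · rw [Dig, Fintype.mem_piFinset]
    intro i
    rw [Pi.zero_apply]
    decide
  · rw [eq_top_iff]
    intro x _
    have h1 : x = ∑ i, x i • (Pi.single i (1 : ℤ) : Fin d → ℤ) := by
      funext j
      rw [Finset.sum_apply]
      simp [Pi.single_apply]
    rw [h1]
    refine AddSubgroup.sum_mem _ fun i _ => AddSubgroup.zsmul_mem _ (AddSubgroup.subset_closure ?_) _
    rw [Finset.mem_coe, Dig, Fintype.mem_piFinset]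
    intro j
    by_cases hij : j = i
    · subst hij
      rw [Pi.single_eq_same]
      decide
    · rw [Pi.single_eq_of_ne hij]
      decide
  · intro b hb b' hb' z hz
    rw [Dig, Fintype.mem_piFinset] at hb hb'
    have h1 : ∀ a ∈ dig, 0 ≤ a ∧ a ≤ 9 := by decide
    funext i
    have h2 := congrFun hz i
    rw [Matrix.mulVec_diagonal] at h2
    have h3 := h1 _ (hb i)
    have h4 := h1 _ (hb' i)
    have h5 : b i - b' i = 12 * z i := h2
    omega
  · refine ⟨TT d, TT_compact, TT_nonempty, ?_⟩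
    simp only [tau_eq]
    exact TT_eq
  · rintro T ⟨hTc, -, hT⟩
    simp only [tau_eq] at hT ⊢
    exact ⟨vol_zero hd hTc hT, fun b _ b' _ hne => gen_disjoint hTc hT hne⟩
  · refine ⟨mu d, inferInstance, ?_⟩
    simp only [tau_eq]
    exact mu_self
  · rintro μ ⟨hp, hμ⟩
    simp only [tau_eq] at hμ
    constructor
    · obtain ⟨e, he1, he2, he3⟩ := spectral hμ
      exact ⟨Spec d, e, Spec_countable d, he1, he2, he3⟩
    · rintro T ⟨hTc, -, hT⟩ b _ b' _ hne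
      simp only [tau_eq] at hT ⊢
      rw [(gen_disjoint hTc hT hne).inter_eq, measure_empty]
  · rintro n hn ⟨L, hL⟩
    obtain ⟨m, rfl⟩ := Nat.exists_eq_add_of_le' hn
    exact not_had hd m L hL

end Pool.Agent.Results.MP_a3bfa4_an.SpectralNotHadamard
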